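import Pool.Agent.FBR.Inv
import Pool.Agent.FBR.Tpb

/-!
# FBS/Br: holomorphic local sections of local biholomorphisms
-/

set_option autoImplicit false

noncomputable section

open scoped Manifold ContDiff Topology

namespace Pool.Agent.FBS

open Pool.Agent.FBR

variable {E X : Type*} [NormedAddCommGroup E] [NormedSpace ℂ E] [FiniteDimensional ℂ E]
  [TopologicalSpace X] [ChartedSpace E X] [IsManifold 𝓘(ℂ, E) ω X]
  {F B : Type*} [NormedAddCommGroup F] [NormedSpace ℂ F] [FiniteDimensional ℂ F]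
  [TopologicalSpace B] [ChartedSpace F B] [IsManifold 𝓘(ℂ, F) ω B]

theorem dmap_bij {p : X → B} (hp : ContMDiff 𝓘(ℂ, E) 𝓘(ℂ, F) ω p) {x : X}
    (hb : Function.Bijective (mfderiv 𝓘(ℂ, E) 𝓘(ℂ, F) p x)) : Function.Bijective (dmap E F p x) := by
  have : (dmap E F p x : E → F) = (mfderiv 𝓘(ℂ, E) 𝓘(ℂ, F) p x : E → F) := by
    funext v
    exact dmap_eq hp x v
  rw [this]
  exact hb

theorem dmap_inj {p : X → B} (hp : ContMDiff 𝓘(ℂ, E) 𝓘(ℂ, F) ω p) {x : X}
    (hb : Function.Injective (mfderiv 𝓘(ℂ, E) 𝓘(ℂ, F) p x)) : Function.Injective (dmap E F p x) := by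
  have : (dmap E F p x : E → F) = (mfderiv 𝓘(ℂ, E) 𝓘(ℂ, F) p x : E → F) := by
    funext v
    exact dmap_eq hp x v
  rw [this]
  exact hb

/-- the local section of `p` through `x`, in terms of a chart of `B` at a point `c` -/
theorem exists_branch {p : X → B} (hp : ContMDiff 𝓘(ℂ, E) 𝓘(ℂ, F) ω p) {x : X}
    (hb : Function.Bijective (mfderiv 𝓘(ℂ, E) 𝓘(ℂ, F) p x)) {c : B} (hc : p x ∈ (chartAt F c).source) :
    ∃ (W : Set F) (s : F → X), IsOpen W ∧ chartAt F c (p x) ∈ W ∧ W ⊆ (chartAt F c).target ∧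
      s (chartAt F c (p x)) = x ∧ ∀ y ∈ W, p (s y) = (chartAt F c).symm y ∧ Hol E s y := by
  have hbd := dmap_bij hp hb
  set e := chartAt E x with he
  have hxs : x ∈ e.source := mem_chart_source E x
  have hxt : e x ∈ e.target := e.map_source hxs
  have hHol : ∀ q ∈ e.target, Hol F (p ∘ e.symm) q := fun q hq => holo_comp hp (hol_symm hq)
  have hval : (p ∘ e.symm) (e x) = p x := by simp [e.left_inv hxs]
  have hbij : Function.Bijective (dvec F (p ∘ e.symm) (e x)) := by
    rw [dvec_holo hp (hol_symm hxt).sm]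
    have h1 : dvec E e.symm (e x) = ContinuousLinearMap.id ℝ E := dvec_symm_self x
    rw [h1]
    have h2 : e.symm (e x) = x := e.left_inv hxs
    rw [h2]
    exact hbd
  obtain ⟨W, k, hWo, hmem, hWt, hk0, hk⟩ := hol_inv e.open_target hHol hxt hbij
    (p := c) (by rw [hval]; exact hc)
  rw [hval] at hmem hk0
  refine ⟨W, e.symm ∘ k, hWo, hmem, hWt, ?_, ?_⟩
  · simp only [Function.comp_apply, hk0]
    exact e.left_inv hxs
  · intro y hy
    obtain ⟨h1, h2, h3⟩ := hk y hy
    refine ⟨h2, ?_⟩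
    exact Hol.comp (hol_symm h1) h3

/-- a local biholomorphism is locally injective -/
theorem loc_inj {p : X → B} (hp : ContMDiff 𝓘(ℂ, E) 𝓘(ℂ, F) ω p) {x : X}
    (hb : Function.Bijective (mfderiv 𝓘(ℂ, E) 𝓘(ℂ, F) p x)) : ∃ N ∈ 𝓝 x, Set.InjOn p N := by
  have hbd := dmap_bij hp hb
  set e := chartAt E x with he
  have hxs : x ∈ e.source := mem_chart_source E x
  have hxt : e x ∈ e.target := e.map_source hxs
  have hH : Hol F (p ∘ e.symm) (e x) := holo_comp hp (hol_symm hxt)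
  have hbij : Function.Bijective (dvec F (p ∘ e.symm) (e x)) := by
    rw [dvec_holo hp (hol_symm hxt).sm]
    have h1 : dvec E e.symm (e x) = ContinuousLinearMap.id ℝ E := dvec_symm_self x
    rw [h1]
    have h2 : e.symm (e x) = x := e.left_inv hxs
    rw [h2]
    exact hbd
  have hsm := hH.sm.2
  set θ : E → F := chartAt F ((p ∘ e.symm) (e x)) ∘ (p ∘ e.symm) with hθ
  haveI : FiniteDimensional ℝ E := FiniteDimensional.complexToReal E
  let L : E ≃L[ℝ] F :=
    (LinearEquiv.ofBijective (dvec F (p ∘ e.symm) (e x)).toLinearMap hbij).toContinuousLinearEquiv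
  have hst : HasStrictFDerivAt θ (L : E →L[ℝ] F) (e x) := by
    have h1 := hsm.hasStrictFDerivAt (by simp)
    have h2 : (L : E →L[ℝ] F) = fderiv ℝ θ (e x) := by
      ext v
      rfl
    rw [h2]
    exact h1
  let Φ := hst.toOpenPartialHomeomorph θ
  have hΦ : (e x) ∈ Φ.source := hst.mem_toOpenPartialHomeomorph_source
  have hco : ∀ q, Φ q = θ q := fun q => rfl
  have hinj : Set.InjOn θ Φ.source := by
    intro a ha b' hb' hab
    exact Φ.injOn ha hb' (by rw [hco, hco]; exact hab)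
  refine ⟨e.source ∩ e ⁻¹' Φ.source, ?_, ?_⟩
  · exact (e.isOpen_inter_preimage Φ.open_source).mem_nhds ⟨hxs, hΦ⟩
  · rintro a ⟨ha1, ha2⟩ b' ⟨hb1, hb2⟩ hab
    have h3 : θ (e a) = θ (e b') := by
      simp only [hθ, Function.comp_apply, e.left_inv ha1, e.left_inv hb1, hab]
    have h4 := hinj ha2 hb2 h3
    exact e.injOn ha1 hb1 h4

end Pool.Agent.FBS
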