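import Mathlib

/-!
# FBS/Top: local homeomorphisms of compact spaces (topology)
-/

set_option autoImplicit false

noncomputable section

open Topology Filter

namespace Pool.Agent.FBS

variable {X' X Y : Type*} [TopologicalSpace X'] [TopologicalSpace X] [TopologicalSpace Y]

/-- the fibres of a continuous locally injective map on a compact space are finite -/
theorem fin_fib [CompactSpace X'] [T1Space X] {p : X' → X} (hc : Continuous p)
    (hl : ∀ x', ∃ N ∈ 𝓝 x', Set.InjOn p N) (x : X) : (p ⁻¹' {x}).Finite := by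
  have hcl : IsClosed (p ⁻¹' {x}) := isClosed_singleton.preimage hc
  have hcp : IsCompact (p ⁻¹' {x}) := hcl.isCompact
  refine hcp.finite ?_
  rw [isDiscrete_iff_discreteTopology]
  rw [discreteTopology_subtype_iff]
  intro a ha
  obtain ⟨N, hN, hinj⟩ := hl a
  rw [← Filter.not_neBot]
  intro hne
  have h1 : ∀ᶠ z in 𝓝[≠] a ⊓ 𝓟 (p ⁻¹' {x}), z ∈ N ∧ z ≠ a ∧ p z = x := by
    have hA : ∀ᶠ z in 𝓝[≠] a ⊓ 𝓟 (p ⁻¹' {x}), z ∈ N :=
      Filter.Eventually.filter_mono (inf_le_left.trans nhdsWithin_le_nhds) hN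
    have hB : ∀ᶠ z in 𝓝[≠] a ⊓ 𝓟 (p ⁻¹' {x}), z ≠ a :=
      Filter.Eventually.filter_mono inf_le_left self_mem_nhdsWithin
    have hC : ∀ᶠ z in 𝓝[≠] a ⊓ 𝓟 (p ⁻¹' {x}), p z = x :=
      Filter.Eventually.filter_mono inf_le_right (by simp [Filter.eventually_principal])
    filter_upwards [hA, hB, hC] with z h1 h2 h3 using ⟨h1, h2, h3⟩
  obtain ⟨z, hz1, hz2, hz3⟩ := h1.exists
  exact hz2 (hinj hz1 (mem_of_mem_nhds hN) (by rw [hz3]; exact ha.symm))

/-- near `y0` the points over `c y` are the values of the local sections `s x'` through the points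
`x'` over `c y0` -/
theorem near_fib [CompactSpace X'] [T2Space X'] [T2Space X] {p : X' → X} (hc : Continuous p)
    (hl : ∀ x', ∃ N ∈ 𝓝 x', Set.InjOn p N) {y0 : Y} {c : Y → X} (hcc : ContinuousAt c y0)
    {s : X' → Y → X'} (hs : ∀ x', p x' = c y0 → ContinuousAt (s x') y0 ∧ s x' y0 = x' ∧
      ∀ᶠ y in 𝓝 y0, p (s x' y) = c y) :
    ∀ᶠ y in 𝓝 y0, Set.BijOn (fun x' => s x' y) (p ⁻¹' {c y0}) (p ⁻¹' {c y}) := by
  classical
  have hfin : (p ⁻¹' {c y0}).Finite := fin_fib hc hl _
  choose N hN hinj using hl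
  -- maps to
  have h1 : ∀ᶠ y in 𝓝 y0, ∀ x' ∈ p ⁻¹' {c y0}, p (s x' y) = c y := by
    rw [Filter.eventually_all_finite hfin]
    exact fun x' hx' => (hs x' hx').2.2
  -- in the neighbourhoods
  have h2 : ∀ᶠ y in 𝓝 y0, ∀ x' ∈ p ⁻¹' {c y0}, s x' y ∈ N x' := by
    rw [Filter.eventually_all_finite hfin]
    intro x' hx'
    have := (hs x' hx').1
    exact this.eventually (by rw [(hs x' hx').2.1]; exact hN x')
  -- injective
  have h3 : ∀ᶠ y in 𝓝 y0, ∀ x' ∈ p ⁻¹' {c y0}, ∀ x'' ∈ p ⁻¹' {c y0}, x' ≠ x'' → s x' y ≠ s x'' y := by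
    rw [Filter.eventually_all_finite hfin]
    intro x' hx'
    rw [Filter.eventually_all_finite hfin]
    intro x'' hx''
    by_cases hne : x' = x''
    · exact Filter.Eventually.of_forall fun y h => absurd hne h
    · have ha := (hs x' hx').1
      have hb := (hs x'' hx'').1
      have : ∀ᶠ y in 𝓝 y0, s x' y ≠ s x'' y := by
        have hab : ContinuousAt (fun y => (s x' y, s x'' y)) y0 := ha.prodMk hb
        have hop : {q : X' × X' | q.1 ≠ q.2} ∈ 𝓝 (s x' y0, s x'' y0) := by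
          refine (isOpen_ne_fun continuous_fst continuous_snd).mem_nhds ?_
          simp only [Set.mem_setOf_eq]
          rw [(hs x' hx').2.1, (hs x'' hx'').2.1]
          exact hne
        exact hab.eventually hop
      exact this.mono fun y hy _ => hy
  -- onto
  have h4 : ∀ᶠ y in 𝓝 y0, ∀ z, p z = c y → ∃ x' ∈ p ⁻¹' {c y0}, z ∈ N x' := by
    set K : Set X' := (⋃ x' ∈ p ⁻¹' {c y0}, interior (N x'))ᶜ with hK
    have hKc : IsClosed K := by
      rw [hK, isClosed_compl_iff]
      exact isOpen_biUnion fun _ _ => isOpen_interior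
    have hKp : IsClosed (p '' K) := (hKc.isCompact.image hc).isClosed
    have hn : c y0 ∉ p '' K := by
      rintro ⟨z, hz, hz'⟩
      apply hz
      simp only [Set.mem_iUnion]
      exact ⟨z, hz', mem_interior_iff_mem_nhds.2 (hN z)⟩
    have := hcc.eventually (hKp.isOpen_compl.mem_nhds hn)
    filter_upwards [this] with y hy z hz
    by_contra hcon
    push Not at hcon
    apply hy
    refine ⟨z, ?_, hz⟩
    rw [hK]
    simp only [Set.mem_compl_iff, Set.mem_iUnion, not_exists]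
    intro x' hx' hmem
    exact hcon x' hx' (interior_subset hmem)
  filter_upwards [h1, h2, h3, h4] with y a1 a2 a3 a4
  refine ⟨fun x' hx' => a1 x' hx', ?_, ?_⟩
  · intro x' hx' x'' hx'' he
    by_contra hne
    exact a3 x' hx' x'' hx'' hne he
  · intro z hz
    obtain ⟨x', hx', hzN⟩ := a4 z hz
    refine ⟨x', hx', ?_⟩
    exact hinj x' (a2 x' hx') hzN (by rw [a1 x' hx']; exact hz.symm)

end Pool.Agent.FBS
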