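import Pool.Agent.FBR.Ops
import Pool.Agent.FBS.Br
import Pool.Agent.FBS.Top

/-!
# FBS/Down: the sum of a form over the fibres of an unramified covering
-/

set_option autoImplicit false

noncomputable section

open scoped Manifold ContDiff Topology

namespace Pool.Agent.FBS

open Pool.Agent.FBR

universe u

section

variable {E X : Type*} [NormedAddCommGroup E] [NormedSpace ℂ E] [FiniteDimensional ℂ E]
  [TopologicalSpace X] [ChartedSpace E X] [IsManifold 𝓘(ℂ, E) ω X]
  {F B : Type*} [NormedAddCommGroup F] [NormedSpace ℂ F] [FiniteDimensional ℂ F]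
  [TopologicalSpace B] [ChartedSpace F B] [IsManifold 𝓘(ℂ, F) ω B]

/-- the sum over the fibres of a local biholomorphism -/
def pushT (p : X → B) (hfin : ∀ b, (p ⁻¹' {b}).Finite) (a : X → Bil E) (b : B) : Bil F :=
  ∑ x ∈ (hfin b).toFinset, (a x).bilinearComp (dmap E F p x).inverse (dmap E F p x).inverse

theorem inverse_dmap {p : X → B} {x : X} (hb : Function.Bijective (dmap E F p x)) (v : E) :
    (dmap E F p x).inverse (dmap E F p x v) = v := by
  haveI : FiniteDimensional ℝ E := FiniteDimensional.complexToReal E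
  let L : E ≃L[ℝ] F :=
    (LinearEquiv.ofBijective (dmap E F p x).toLinearMap hb).toContinuousLinearEquiv
  have h : dmap E F p x = (L : E →L[ℝ] F) := by
    ext v
    rfl
  rw [h, ContinuousLinearMap.inverse_equiv]
  simp

theorem dmap_inverse {p : X → B} {x : X} (hb : Function.Bijective (dmap E F p x)) (v : F) :
    dmap E F p x ((dmap E F p x).inverse v) = v := by
  obtain ⟨w, rfl⟩ := hb.2 v
  rw [inverse_dmap hb]

theorem inverse_I {p : X → B} (hp : ContMDiff 𝓘(ℂ, E) 𝓘(ℂ, F) ω p) {x : X}
    (hb : Function.Bijective (dmap E F p x)) (v : F) :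
    (dmap E F p x).inverse (Complex.I • v) = Complex.I • (dmap E F p x).inverse v := by
  apply hb.1
  rw [dmap_inverse hb, dmap_I hp, dmap_inverse hb]

theorem pushT_apply (p : X → B) (hfin : ∀ b, (p ⁻¹' {b}).Finite) (a : X → Bil E) (b : B) (u v : F) :
    pushT p hfin a b u v =
      ∑ x ∈ (hfin b).toFinset, a x ((dmap E F p x).inverse u) ((dmap E F p x).inverse v) := by
  simp [pushT, ContinuousLinearMap.sum_apply]

/-- `pushT` in terms of local sections -/
theorem tpb_pushT {p : X → B} (hp : ContMDiff 𝓘(ℂ, E) 𝓘(ℂ, F) ω p)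
    (hb : ∀ x, Function.Bijective (mfderiv 𝓘(ℂ, E) 𝓘(ℂ, F) p x))
    (hfin : ∀ b, (p ⁻¹' {b}).Finite) (a : X → Bil E) {c : F → B} {y : F} {T : Finset X} {s : X → F → X}
    (hs : ∀ x ∈ T, Sm E (s x) y ∧ ∀ᶠ y' in 𝓝 y, p (s x y') = c y')
    (hbij : Set.BijOn (fun x => s x y) T (p ⁻¹' {c y})) :
    tpb (pushT (F := F) p hfin a) c y = ∑ x ∈ T, tpb a (s x) y := by
  ext u v
  rw [tpb_apply, pushT_apply]
  simp only [ContinuousLinearMap.sum_apply, tpb_apply]
  symm
  refine Finset.sum_bij (fun x _ => s x y) ?_ ?_ ?_ ?_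
  · intro x hx
    simp only [Set.Finite.mem_toFinset]
    exact hbij.mapsTo hx
  · intro x hx x' hx' he
    exact hbij.injOn hx hx' he
  · intro z hz
    simp only [Set.Finite.mem_toFinset] at hz
    obtain ⟨x, hx, hxz⟩ := hbij.surjOn hz
    exact ⟨x, hx, hxz⟩
  · intro x hx
    obtain ⟨h1, h2⟩ := hs x hx
    have h3 : dvec F c y = dvec F (p ∘ s x) y := by
      have he : p (s x y) = c y := h2.self_of_nhds
      unfold dvec
      simp only [Function.comp_apply, he]
      apply Filter.EventuallyEq.fderiv_eq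
      filter_upwards [h2] with y' hy'
      simp only [Function.comp_apply, hy']
    have h4 := dvec_holo hp h1
    rw [h3, h4]
    simp only [ContinuousLinearMap.comp_apply]
    rw [inverse_dmap (dmap_bij hp (hb _)), inverse_dmap (dmap_bij hp (hb _))]

end

/-- the sum of a form over the fibres of a covering is a form -/
theorem exists_push (M' M : CM.{u}) (p : M'.X → M.X) (hp : Cover M'.E M.E p)
    (hfin : ∀ b, (p ⁻¹' {b}).Finite) (w : Form M'.E M'.X) :
    ∃ b : Form M.E M.X, b.val = pushT (F := M.E) p hfin w.val := by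
  have hloc : ∀ x : M'.X, ∃ N ∈ 𝓝 x, Set.InjOn p N := fun x => loc_inj hp.hol (hp.bij x)
  have hcont : Continuous p := hp.hol.continuous
  refine exists_form (G := M.E) _ ?_ ?_ ?_
  · intro x v
    rw [pushT_apply]
    exact Finset.sum_eq_zero fun x _ => w.alt _ _
  · intro x u v
    rw [pushT_apply, pushT_apply]
    refine Finset.sum_congr rfl fun x _ => ?_
    rw [inverse_I hp.hol (dmap_bij hp.hol (hp.bij _)), inverse_I hp.hol (dmap_bij hp.hol (hp.bij _)), w.j]
  · intro x0
    set e := chartAt M.E x0 with he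
    have hxs : x0 ∈ e.source := mem_chart_source M.E x0
    have hxt : e x0 ∈ e.target := e.map_source hxs
    have hc0 : e.symm (e x0) = x0 := e.left_inv hxs
    -- sections
    have hbr : ∀ x : M'.X, ∃ s : M.E → M'.X, p x = x0 → (s (e x0) = x ∧
        ∀ᶠ y in 𝓝 (e x0), y ∈ e.target ∧ p (s y) = e.symm y ∧ Hol M'.E s y) := by
      intro x
      by_cases hx : p x = x0
      · obtain ⟨W, s, hW, hm, hWt, hs0, hs⟩ := exists_branch hp.hol (hp.bij x) (c := x0)
          (by rw [hx]; exact hxs)
        rw [hx] at hm hs0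
        refine ⟨s, fun _ => ⟨hs0, ?_⟩⟩
        filter_upwards [hW.mem_nhds hm] with y hy
        exact ⟨hWt hy, hs y hy⟩
      · exact ⟨fun _ => x, fun h => absurd h hx⟩
    choose s hs using hbr
    have hnear := near_fib hcont hloc (y0 := e x0) (c := e.symm) (e.continuousAt_symm hxt) (s := s) (by
      intro x hx
      rw [hc0] at hx
      obtain ⟨h1, h2⟩ := hs x hx
      refine ⟨h2.self_of_nhds.2.2.1, h1, ?_⟩
      filter_upwards [h2] with y hy using hy.2.1)
    rw [hc0] at hnear
    have hall : ∀ᶠ y in 𝓝 (e x0), ∀ x ∈ p ⁻¹' {x0}, y ∈ e.target ∧ p (s x y) = e.symm y ∧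
        Hol M'.E (s x) y := by
      rw [Filter.eventually_all_finite (hfin x0)]
      exact fun x hx => (hs x hx).2
    have htar : ∀ᶠ y in 𝓝 (e x0), y ∈ e.target := e.open_target.mem_nhds hxt
    obtain ⟨O, hO1, hO, hO2⟩ := eventually_nhds_iff.1 (hnear.and (hall.and htar))
    have hform : ∀ y ∈ O, tpb (pushT (F := M.E) p hfin w.val) e.symm y =
        ∑ x ∈ (hfin x0).toFinset, tpb w.val (s x) y := by
      intro y hy
      refine tpb_pushT hp.hol hp.bij hfin w.val (T := (hfin x0).toFinset) (s := s) ?_ ?_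
      · intro x hx
        have hx' : x ∈ p ⁻¹' {x0} := by simpa using hx
        refine ⟨((hO1 y hy).2.1 x hx').2.2.sm, ?_⟩
        filter_upwards [hO.mem_nhds hy] with y' hy'
        exact ((hO1 y' hy').2.1 x hx').2.1
      · have := (hO1 y hy).1
        simpa using this
    have hsm : ∀ x ∈ (hfin x0).toFinset, ∀ y ∈ O, Sm M'.E (s x) y := by
      intro x hx y hy
      have hx' : x ∈ p ⁻¹' {x0} := by simpa using hx
      exact ((hO1 y hy).2.1 x hx').2.2.sm
    refine ⟨e.symm, O, hO, ⟨e x0, hO2, hc0⟩, ?_, ?_, ?_⟩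
    · intro y hy
      exact ⟨(hol_symm (hO1 y hy).2.2).sm, dvec_symm_bij (hO1 y hy).2.2⟩
    · refine ContDiffOn.congr (f := fun y => ∑ x ∈ (hfin x0).toFinset, tpb w.val (s x) y) ?_ hform
      exact ContDiffOn.sum fun x hx => tpb_smooth w hO (hsm x hx)
    · intro y hy u v z
      have h1 : fderiv ℝ (tpb (pushT (F := M.E) p hfin w.val) e.symm) y =
          ∑ x ∈ (hfin x0).toFinset, fderiv ℝ (tpb w.val (s x)) y := by
        have h2 : tpb (pushT (F := M.E) p hfin w.val) e.symm =ᶠ[𝓝 y]
            fun y => ∑ x ∈ (hfin x0).toFinset, tpb w.val (s x) y := by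
          filter_upwards [hO.mem_nhds hy] with y' hy' using hform y' hy'
        rw [h2.fderiv_eq]
        have h3 : HasFDerivAt (fun y => ∑ x ∈ (hfin x0).toFinset, tpb w.val (s x) y)
            (∑ x ∈ (hfin x0).toFinset, fderiv ℝ (tpb w.val (s x)) y) y :=
          HasFDerivAt.fun_sum fun x hx =>
            (((tpb_smooth w hO (hsm x hx)).contDiffAt (hO.mem_nhds hy)).differentiableAt
              (by simp)).hasFDerivAt
        exact h3.fderiv
      rw [h1]
      simp only [ContinuousLinearMap.sum_apply]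
      rw [← Finset.sum_add_distrib, ← Finset.sum_add_distrib]
      refine Finset.sum_eq_zero fun x hx => ?_
      exact tpb_closed w hO (hsm x hx) hy u v z

/-- an unramified quotient of a Kaehler manifold is a Kaehler manifold -/
theorem cover_down (M' M : CM.{u}) (p : M'.X → M.X) (hp : Cover M'.E M.E p) (h : Kaehler M') :
    Kaehler M := by
  obtain ⟨w, hw⟩ := h
  have hloc : ∀ x : M'.X, ∃ N ∈ 𝓝 x, Set.InjOn p N := fun x => loc_inj hp.hol (hp.bij x)
  have hcont : Continuous p := hp.hol.continuous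
  have hfin : ∀ b, (p ⁻¹' {b}).Finite := fun b => fin_fib hcont hloc b
  obtain ⟨b, hb⟩ := exists_push M' M p hp hfin w
  refine ⟨b, fun x v hv => ?_⟩
  rw [hb, pushT_apply]
  apply Finset.sum_pos
  · intro x' _
    have hbj := dmap_bij hp.hol (hp.bij x')
    rw [inverse_I hp.hol hbj]
    apply hw
    intro h0
    apply hv
    rw [← dmap_inverse hbj v, h0, map_zero]
  · obtain ⟨x', hx'⟩ := hp.surj x
    exact ⟨x', by simpa using hx'⟩

end Pool.Agent.FBS
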