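import Pool.Agent.FBS.Up
import Pool.Agent.FBS.Down

/-!
# FBS/Main: the induction

The four steps for fibrations are hypotheses here; they are supplied in the final file.
-/

set_option autoImplicit false

noncomputable section

open scoped Manifold ContDiff Topology

namespace Pool.Agent.FBS

open Pool.Agent.FBR

universe u

theorem tow_kaehler_of
    (curve_base : ∀ (M B : CM.{u}) (π : M.X → B.X), CurveFib M.E B.E π → SemiPos M → SemiPos B)
    (curve_total : ∀ (M B : CM.{u}) (π : M.X → B.X), CurveFib M.E B.E π → SemiPos M → Kaehler B →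
      Kaehler M)
    (torus_base : ∀ (M B : CM.{u}) (π : M.X → B.X) (k : ℕ), TorusFib M.E B.E π k → SemiPos M →
      SemiPos B)
    (torus_total : ∀ (M B : CM.{u}) (π : M.X → B.X) (k : ℕ), TorusFib M.E B.E π k → SemiPos M →
      Kaehler B → Kaehler M)
    (M : CM.{u}) (hM : Tow M) (h : SemiPos M) : Kaehler M := by
  induction hM with
  | kaehler M hK => exact hK
  | curve M B π hπ hB ih => exact curve_total M B π hπ h (ih (curve_base M B π hπ h))
  | torus M B π k hπ hB ih => exact torus_total M B π k hπ h (ih (torus_base M B π k hπ h))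
  | quot M' M p hp hM' ih => exact cover_down M' M p hp (ih (cover_up M' M p hp h))
  | cov M F i hi hx hK hF ih =>
    exfalso
    obtain ⟨b, hb, x, hbx⟩ := h
    obtain ⟨y, hy⟩ := hx x
    exact hK x (ih x (imm_up M (F x) (i x) (hi x) b hb y (by rw [hy]; exact hbx)))

/-- the second part of the theorem -/
theorem fujiki_of (htow : ∀ M : CM.{u}, Tow M → SemiPos M → Kaehler M)
    (M N : CM.{u}) (hM : Tow M) (f : M.X → N.X) (hf : ContMDiff 𝓘(ℂ, M.E) 𝓘(ℂ, N.E) ω f)
    (hs : Function.Surjective f) (hd : Module.finrank ℂ M.E = Module.finrank ℂ N.E)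
    (h : SemiPos N) : Fujiki N :=
  ⟨M, f, htow M hM (dom_up M N f hf hs hd h), hf, hs⟩

end Pool.Agent.FBS
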