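import Pool.Agent.FBR.Ops
import Pool.Agent.FBS.Br

/-!
# FBS/Sard: regular points of surjective holomorphic maps between manifolds of the same dimension
-/

set_option autoImplicit false

noncomputable section

open scoped Manifold ContDiff Topology

namespace Pool.Agent.FBS

open Pool.Agent.FBR

universe u

theorem det_zero {V : Type*} [NormedAddCommGroup V] [NormedSpace ℝ V] [FiniteDimensional ℝ V]
    (A : V →L[ℝ] V) (h : ¬ Function.Injective A) : A.det = 0 := by
  by_contra hne
  apply h
  have h1 : IsUnit (LinearMap.det (A : V →ₗ[ℝ] V)) := isUnit_iff_ne_zero.2 hne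
  have h2 := (LinearEquiv.ofIsUnitDet (f := (A : V →ₗ[ℝ] V)) (v := Module.finBasis ℝ V)
    (v' := Module.finBasis ℝ V) (by rw [LinearMap.det_toMatrix]; exact h1)).injective
  exact h2

theorem sard (M N : CM.{u}) (f : M.X → N.X) (hf : ContMDiff 𝓘(ℂ, M.E) 𝓘(ℂ, N.E) ω f)
    (hs : Function.Surjective f) (hd : Module.finrank ℂ M.E = Module.finrank ℂ N.E) (U : Set N.X)
    (hU : IsOpen U) (hne : U.Nonempty) : ∃ x, f x ∈ U ∧ Function.Injective (dmap M.E N.E f x) := by
  by_contra hcon
  push Not at hcon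
  obtain ⟨y0, hy0⟩ := hne
  have : FiniteDimensional ℝ M.E := FiniteDimensional.complexToReal M.E
  have : FiniteDimensional ℝ N.E := FiniteDimensional.complexToReal N.E
  have hcont : Continuous f := hf.continuous
  set e' := chartAt N.E y0 with he'
  set U1 : Set N.X := U ∩ e'.source with hU1
  have hU1o : IsOpen U1 := hU.inter e'.open_source
  have hy1 : y0 ∈ U1 := ⟨hy0, mem_chart_source N.E y0⟩
  -- the linear isomorphism
  have hfr : Module.finrank ℝ N.E = Module.finrank ℝ M.E := by
    rw [finrank_real_of_complex, finrank_real_of_complex, hd]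
  let L : N.E ≃L[ℝ] M.E := ContinuousLinearEquiv.ofFinrankEq hfr
  let g : M.X → M.E → M.E := fun x => L ∘ (e' ∘ (f ∘ (chartAt M.E x).symm))
  let O : M.X → Set M.E := fun x => (chartAt M.E x).target ∩ (chartAt M.E x).symm ⁻¹' (f ⁻¹' U1)
  have hO : ∀ x, IsOpen (O x) := fun x =>
    (chartAt M.E x).isOpen_inter_preimage_symm (hU1o.preimage hcont)
  let P : M.X → Set M.X := fun x => (chartAt M.E x).source ∩ (chartAt M.E x) ⁻¹' (O x)
  have hP : ∀ x, IsOpen (P x) := fun x => (chartAt M.E x).isOpen_inter_preimage (hO x)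
  letI : MeasurableSpace M.E := borel M.E
  haveI : BorelSpace M.E := ⟨rfl⟩
  let μ : MeasureTheory.Measure M.E := MeasureTheory.Measure.addHaar
  have hzero : ∀ x, μ (g x '' O x) = 0 := by
    intro x
    have hder : ∀ y ∈ O x, HasFDerivWithinAt (g x)
        ((L : N.E →L[ℝ] M.E).comp (fderiv ℝ (e' ∘ (f ∘ (chartAt M.E x).symm)) y)) (O x) y := by
      intro y hy
      have h1 : Hol N.E (f ∘ (chartAt M.E x).symm) y := holo_comp hf (hol_symm hy.1)
      have h2 : ContDiffAt ℝ ∞ (e' ∘ (f ∘ (chartAt M.E x).symm)) y :=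
        (sm_iff h1.1 hy.2.2).1 h1.sm
      have h3 : HasFDerivAt (e' ∘ (f ∘ (chartAt M.E x).symm))
          (fderiv ℝ (e' ∘ (f ∘ (chartAt M.E x).symm)) y) y :=
        (h2.differentiableAt (by simp)).hasFDerivAt
      exact ((L : N.E →L[ℝ] M.E).hasFDerivAt.comp y h3).hasFDerivWithinAt
    refine MeasureTheory.addHaar_image_eq_zero_of_det_fderivWithin_eq_zero μ hder ?_
    intro y hy
    apply det_zero
    intro hinj
    have h1 : Hol N.E (f ∘ (chartAt M.E x).symm) y := holo_comp hf (hol_symm hy.1)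
    have h2 := dvec_chart (p := y0) h1.sm hy.2.2
    have h3 := dvec_holo hf (hol_symm hy.1).sm
    apply hcon ((chartAt M.E x).symm y) hy.2.1
    have hinj2 : Function.Injective (dvec N.E (f ∘ (chartAt M.E x).symm) y) := by
      intro a b hab
      apply hinj
      simp only [ContinuousLinearMap.comp_apply]
      rw [h2]
      simp only [ContinuousLinearMap.comp_apply, hab]
    rw [h3] at hinj2
    intro a b hab
    obtain ⟨a', rfl⟩ := (dvec_symm_bij hy.1).2 a
    obtain ⟨b', rfl⟩ := (dvec_symm_bij hy.1).2 b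
    have : a' = b' := by
      apply hinj2
      simp only [ContinuousLinearMap.comp_apply]
      exact hab
    rw [this]
  -- countable cover
  have : SecondCountableTopology M.X := ChartedSpace.secondCountable_of_sigmaCompact M.E M.X
  obtain ⟨T, hT, hTe⟩ := TopologicalSpace.isOpen_iUnion_countable P hP
  have hsub : L '' (e' '' U1) ⊆ ⋃ x ∈ T, g x '' O x := by
    rintro _ ⟨_, ⟨z, hz, rfl⟩, rfl⟩
    obtain ⟨x, rfl⟩ := hs z
    have hx : x ∈ ⋃ x, P x := by
      refine Set.mem_iUnion.2 ⟨x, mem_chart_source M.E x, ?_, ?_⟩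
      · exact (chartAt M.E x).map_source (mem_chart_source M.E x)
      · simp only [Set.mem_preimage, (chartAt M.E x).left_inv (mem_chart_source M.E x)]
        exact hz
    rw [← hTe] at hx
    simp only [Set.mem_iUnion] at hx
    obtain ⟨x1, hx1, h1, h2⟩ := hx
    simp only [Set.mem_iUnion]
    refine ⟨x1, hx1, chartAt M.E x1 x, h2, ?_⟩
    simp only [g, Function.comp_apply, (chartAt M.E x1).left_inv h1]
  have hm : μ (L '' (e' '' U1)) = 0 := by
    refine MeasureTheory.measure_mono_null hsub ?_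
    rw [MeasureTheory.measure_biUnion_null_iff hT]
    exact fun x _ => hzero x
  have hop : IsOpen (L '' (e' '' U1)) := by
    have h1 : IsOpen (e' '' U1) := e'.isOpen_image_of_subset_source hU1o Set.inter_subset_right
    exact L.toHomeomorph.isOpenMap _ h1
  have hpos := hop.measure_pos μ ⟨_, _, ⟨y0, hy1, rfl⟩, rfl⟩
  exact (ne_of_gt hpos) hm

end Pool.Agent.FBS
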