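import Pool.Agent.FBS.Sard

/-!
# FBS/Up: pull back of semi-positive forms
-/

set_option autoImplicit false

noncomputable section

open scoped Manifold ContDiff Topology

namespace Pool.Agent.FBS

open Pool.Agent.FBR

universe u

/-- the set of points where a form is positive is open -/
theorem isOpen_pos (M : CM.{u}) (b : Form M.E M.X) : IsOpen {x | b.PosAt x} := by
  rw [isOpen_iff_mem_nhds]
  intro x0 hx0
  set e := chartAt M.E x0 with he
  have hxs : x0 ∈ e.source := mem_chart_source M.E x0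
  have hxt : e x0 ∈ e.target := e.map_source hxs
  have hc0 : e.symm (e x0) = x0 := e.left_inv hxs
  have hchar : ∀ y ∈ e.target, (b.PosAt (e.symm y) ↔
      ∀ v : M.E, v ≠ 0 → 0 < coef b.val x0 y v (Complex.I • v)) := fun y hy =>
    posAt_iff b (hol_symm hy) (dvec_symm_bij hy)
  have hcont : ContinuousOn (coef b.val x0) e.target := (b.smooth x0).continuousOn
  have h0 : ∀ v : M.E, v ≠ 0 → 0 < coef b.val x0 (e x0) v (Complex.I • v) := by
    rw [← hchar _ hxt, hc0]
    exact hx0
  have : FiniteDimensional ℝ M.E := FiniteDimensional.complexToReal M.E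
  obtain ⟨ε, hε, hq⟩ : ∃ ε > 0, ∀ v : M.E, ε * ‖v‖ ^ 2 ≤ coef b.val x0 (e x0) v (Complex.I • v) := by
    set A := coef b.val x0 (e x0) with hA
    have hK : IsCompact (Metric.sphere (0 : M.E) 1) := isCompact_sphere 0 1
    have hfc : Continuous fun v : M.E => A v (Complex.I • v) := by fun_prop
    rcases (Metric.sphere (0 : M.E) 1).eq_empty_or_nonempty with hem | hnem
    · refine ⟨1, one_pos, fun v => ?_⟩
      have hv : v = 0 := by
        by_contra hv
        have hmem : (‖v‖⁻¹ : ℝ) • v ∈ Metric.sphere (0 : M.E) 1 := by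
          rw [mem_sphere_zero_iff_norm, norm_smul, norm_inv, norm_norm,
            inv_mul_cancel₀ (norm_ne_zero_iff.2 hv)]
        rw [hem] at hmem
        exact hmem
      subst hv
      simp
    · obtain ⟨v0, hv0, hmin⟩ := hK.exists_isMinOn hnem hfc.continuousOn
      have hv0' : v0 ≠ 0 := by
        intro h
        rw [h, mem_sphere_zero_iff_norm, norm_zero] at hv0
        exact zero_ne_one hv0
      refine ⟨A v0 (Complex.I • v0), h0 v0 hv0', fun v => ?_⟩
      by_cases hv : v = 0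
      · subst hv
        simp
      · have hn : ‖v‖ ≠ 0 := norm_ne_zero_iff.2 hv
        have hmem : (‖v‖⁻¹ : ℝ) • v ∈ Metric.sphere (0 : M.E) 1 := by
          rw [mem_sphere_zero_iff_norm, norm_smul, norm_inv, norm_norm, inv_mul_cancel₀ hn]
        have h1 := hmin hmem
        simp only [Set.mem_setOf_eq] at h1
        have h2 : A ((‖v‖⁻¹ : ℝ) • v) (Complex.I • ((‖v‖⁻¹ : ℝ) • v)) =
            ‖v‖⁻¹ ^ 2 * A v (Complex.I • v) := by
          rw [smul_comm Complex.I (‖v‖⁻¹ : ℝ) v]
          simp only [map_smul, ContinuousLinearMap.smul_apply, smul_eq_mul]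
          ring
        rw [h2] at h1
        calc A v0 (Complex.I • v0) * ‖v‖ ^ 2 ≤ (‖v‖⁻¹ ^ 2 * A v (Complex.I • v)) * ‖v‖ ^ 2 := by gcongr
          _ = A v (Complex.I • v) := by
            rw [inv_pow]
            field_simp
  have hnear : ∀ᶠ y in 𝓝 (e x0), y ∈ e.target ∧ ‖coef b.val x0 y - coef b.val x0 (e x0)‖ < ε := by
    have h1 : ContinuousAt (coef b.val x0) (e x0) := hcont.continuousAt (e.open_target.mem_nhds hxt)
    have h2 : ∀ᶠ y in 𝓝 (e x0), dist (coef b.val x0 y) (coef b.val x0 (e x0)) < ε :=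
      Metric.continuousAt_iff'.1 h1 ε hε
    filter_upwards [h2, e.open_target.mem_nhds hxt] with y hy hy'
    exact ⟨hy', (dist_eq_norm (coef b.val x0 y) (coef b.val x0 (e x0))).symm.trans_lt hy⟩
  have hpre := (e.continuousAt hxs).eventually hnear
  filter_upwards [hpre, e.open_source.mem_nhds hxs] with x hx hxs'
  obtain ⟨h1, h2⟩ := hx
  have h3 : e.symm (e x) = x := e.left_inv hxs'
  have h4 : b.PosAt (e.symm (e x)) := by
    rw [hchar _ h1]
    intro v hv
    have h5 : |(coef b.val x0 (e x) - coef b.val x0 (e x0)) v (Complex.I • v)| ≤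
        ‖coef b.val x0 (e x) - coef b.val x0 (e x0)‖ * ‖v‖ * ‖v‖ := by
      have h6 := (coef b.val x0 (e x) - coef b.val x0 (e x0)).le_opNorm₂ v (Complex.I • v)
      rw [norm_smul, Complex.norm_I, one_mul, Real.norm_eq_abs] at h6
      exact h6
    have h7 : 0 < ‖v‖ := norm_pos_iff.2 hv
    have h8 : ‖coef b.val x0 (e x) - coef b.val x0 (e x0)‖ * ‖v‖ * ‖v‖ < ε * ‖v‖ * ‖v‖ := by
      gcongr
    have h9 := hq v
    simp only [ContinuousLinearMap.sub_apply] at h5
    have h10 := (abs_le.1 h5).1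
    nlinarith
  rw [h3] at h4
  exact h4

/-- pull back of a semi-positive form -/
theorem semi_up (M N : CM.{u}) (f : N.X → M.X) (hf : ContMDiff 𝓘(ℂ, N.E) 𝓘(ℂ, M.E) ω f)
    (b : Form M.E M.X) (hb : b.Semi) (y : N.X) (hy : b.PosAt (f y))
    (hi : Function.Injective (dmap N.E M.E f y)) : SemiPos N := by
  obtain ⟨c, hc⟩ := exists_comap b hf
  refine ⟨c, ?_, y, ?_⟩
  · intro x v
    rw [hc]
    simp only [ContinuousLinearMap.bilinearComp_apply]
    rw [dmap_I hf]
    exact hb _ _
  · intro v hv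
    rw [hc]
    simp only [ContinuousLinearMap.bilinearComp_apply]
    rw [dmap_I hf]
    apply hy
    intro h0
    apply hv
    apply hi
    rw [h0, map_zero]

theorem cover_up (M' M : CM.{u}) (p : M'.X → M.X) (hp : Cover M'.E M.E p) (h : SemiPos M) :
    SemiPos M' := by
  obtain ⟨b, hb, x, hx⟩ := h
  obtain ⟨y, rfl⟩ := hp.surj x
  exact semi_up M M' p hp.hol b hb y hx (dmap_bij hp.hol (hp.bij y)).1

theorem imm_up (M N : CM.{u}) (i : N.X → M.X) (hi : Immersion N.E M.E i) (b : Form M.E M.X)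
    (hb : b.Semi) (y : N.X) (hx : b.PosAt (i y)) : SemiPos N :=
  semi_up M N i hi.hol b hb y hx (dmap_inj hi.hol (hi.inj y))

theorem dom_up (M N : CM.{u}) (f : M.X → N.X) (hf : ContMDiff 𝓘(ℂ, M.E) 𝓘(ℂ, N.E) ω f)
    (hs : Function.Surjective f) (hd : Module.finrank ℂ M.E = Module.finrank ℂ N.E)
    (h : SemiPos N) : SemiPos M := by
  obtain ⟨b, hb, x, hx⟩ := h
  obtain ⟨y, hy, hi⟩ := sard M N f hf hs hd {x | b.PosAt x} (isOpen_pos N b) ⟨x, hx⟩
  exact semi_up N M f hf b hb y hy hi

end Pool.Agent.FBS
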